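import Pool.Agent.X214.AF.Main

/-!
# Adapted metrics for sectional-hyperbolic sets

`M` is a closed smooth manifold modelled on the finite dimensional space `E`, `X` a `C^1` vector
field on `M` with flow `φ`, and `Λ` a compact invariant set which is sectional-hyperbolic
(`SecHyp`), with splitting `G ⊕ F` and constants `C`, `a`, in some (continuous) Riemannian metric
`g`. Then for every `b < a` there is a continuous Riemannian metric on `M` in which `Λ` is
sectional-hyperbolic, for the same splitting, with constants `1`, `b`.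
-/

set_option autoImplicit false

open scoped Manifold ContDiff Topology

namespace Pool.Agent.Results.MP_d49e10_an.AdaptedMetrics

open Pool.Agent.X214.AF

theorem result {E : Type} [NormedAddCommGroup E] [NormedSpace ℝ E] [FiniteDimensional ℝ E]
    {M : Type} [TopologicalSpace M] [T2Space M] [CompactSpace M] [ChartedSpace E M]
    [IsManifold 𝓘(ℝ, E) ∞ M] (X : ∀ x : M, TangentSpace 𝓘(ℝ, E) x)
    (hX : ContMDiff 𝓘(ℝ, E) 𝓘(ℝ, E).tangent 1
      (fun x => (⟨x, X x⟩ : TangentBundle 𝓘(ℝ, E) M)))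
    (φ : ℝ → M → M) (hφ : IsFlow X φ) (Λ : Set M) (hΛ : IsCompact Λ)
    (hinv : ∀ t, ∀ x ∈ Λ, φ t x ∈ Λ)
    (G F : ∀ x : M, Submodule ℝ (TangentSpace 𝓘(ℝ, E) x)) (g : CRMetric E M) (C a : ℝ)
    (hC : 1 ≤ C) (ha : 0 < a) (h : SecHyp g φ Λ G F C a) :
    ∀ b < a, ∃ g' : CRMetric E M, SecHyp g' φ Λ G F 1 b :=
  fun _ hb => adapted hX hφ hΛ hinv g hC hb h

end Pool.Agent.Results.MP_d49e10_an.AdaptedMetrics
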